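import Pool.Agent.Helper57.QZ.Stmts

/-! QZ row UV: the upper bound for `|Vy|`. -/

set_option autoImplicit false

namespace Pool.Agent.Helper57.QZ

open MeasureTheory Set Filter Topology

namespace S2

/-- a finite net of directions -/
theorem net {η : ℝ} (h0 : 0 < η) (h1 : η < 1) {m : ℝ} (hm : 0 ≤ m) (w : ℂ)
    (hw : (1 + η) * m ≤ ‖w‖) :
    ∃ j ∈ Finset.Icc (-(⌈Real.pi / (η / 2)⌉₊ : ℤ)) ⌈Real.pi / (η / 2)⌉₊,
      (1 + η / 2) * m ≤
        (Complex.exp (-((((j : ℝ) * (η / 2) : ℝ) : ℂ) * Complex.I)) * w).re := by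
  have hδ : 0 < η / 2 := by linarith
  set j : ℤ := ⌊Complex.arg w / (η / 2)⌋ with hj
  have hj1 : (j : ℝ) * (η / 2) ≤ Complex.arg w := by
    have := Int.floor_le (Complex.arg w / (η / 2))
    rwa [← hj, le_div_iff₀ hδ] at this
  have hj2 : Complex.arg w < ((j : ℝ) + 1) * (η / 2) := by
    have := Int.lt_floor_add_one (Complex.arg w / (η / 2))
    rwa [← hj, div_lt_iff₀ hδ] at this
  refine ⟨j, ?_, ?_⟩
  · have hc : Real.pi / (η / 2) ≤ (⌈Real.pi / (η / 2)⌉₊ : ℝ) := Nat.le_ceil _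
    rw [Finset.mem_Icc]
    constructor
    · rw [hj, Int.le_floor]
      push_cast
      have h3 : -(Real.pi / (η / 2)) ≤ Complex.arg w / (η / 2) := by
        rw [← neg_div]
        exact div_le_div_of_nonneg_right (Complex.neg_pi_lt_arg w).le hδ.le
      linarith
    · have h3 : Complex.arg w / (η / 2) ≤ Real.pi / (η / 2) :=
        div_le_div_of_nonneg_right (Complex.arg_le_pi w) hδ.le
      have h4 : (j : ℝ) ≤ (⌈Real.pi / (η / 2)⌉₊ : ℝ) :=
        (Int.floor_le _).trans (h3.trans hc)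
      exact_mod_cast h4
  · obtain ⟨x, hx⟩ : ∃ x : ℝ, x = Complex.arg w - (j : ℝ) * (η / 2) := ⟨_, rfl⟩
    have hx0 : 0 ≤ x := by rw [hx]; linarith
    have hx1 : x ≤ η / 2 := by rw [hx]; linarith
    have e1 : (Complex.exp (-((((j : ℝ) * (η / 2) : ℝ) : ℂ) * Complex.I)) * w).re =
        ‖w‖ * Real.cos x := by
      conv_lhs => rw [← Complex.norm_mul_exp_arg_mul_I w]
      rw [mul_left_comm, ← Complex.exp_add, Complex.re_ofReal_mul]
      congr 1
      rw [← Complex.exp_ofReal_mul_I_re, hx]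
      congr 2
      push_cast
      ring
    rw [e1]
    have h2 : 1 - x ^ 2 / 2 ≤ Real.cos x := Real.one_sub_sq_div_two_le_cos
    have h3 : x ^ 2 ≤ (η / 2) ^ 2 := by
      exact pow_le_pow_left₀ hx0 hx1 2
    have h4 : 1 - η ^ 2 / 8 ≤ Real.cos x := by nlinarith
    have h5 : (1 + η / 2) ≤ (1 + η) * (1 - η ^ 2 / 8) := by nlinarith [mul_pos h0 h0]
    have h6 : 0 ≤ 1 - η ^ 2 / 8 := by nlinarith
    calc (1 + η / 2) * m ≤ (1 + η) * (1 - η ^ 2 / 8) * m :=
          mul_le_mul_of_nonneg_right h5 hm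
      _ = (1 + η) * m * (1 - η ^ 2 / 8) := by ring
      _ ≤ ‖w‖ * (1 - η ^ 2 / 8) := mul_le_mul_of_nonneg_right hw h6
      _ ≤ ‖w‖ * Real.cos x := mul_le_mul_of_nonneg_left h4 (norm_nonneg w)

theorem re_Vy (y : ℕ) (σ : ℝ) (φ : Pr y → ℝ) :
    (Vy y σ φ).re = ∑ p : Pr y, aa σ p * Real.log p * Real.cos (φ p) := by
  rw [Vy, Complex.re_sum]
  refine Finset.sum_congr rfl fun p _ => ?_
  rw [Complex.re_ofReal_mul]
  congr 1
  have e1 : -((φ p : ℂ) * Complex.I) = ((-φ p : ℝ) : ℂ) * Complex.I := by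
    push_cast
    ring
  rw [e1, Complex.exp_ofReal_mul_I_re, Real.cos_neg]

theorem int_exp (y : ℕ) (c : Pr y → ℝ) :
    Integrable (fun φ : Pr y → ℝ => Real.exp (∑ p : Pr y, c p * Real.cos (φ p))) (tor y) := by
  have hcont : Continuous fun φ : Pr y → ℝ => Real.exp (∑ p : Pr y, c p * Real.cos (φ p)) := by
    fun_prop
  refine Integrable.of_bound (C := Real.exp (∑ p : Pr y, |c p|)) hcont.aestronglyMeasurable
    (ae_of_all _ fun φ => ?_)
  rw [Real.norm_eq_abs, abs_of_pos (Real.exp_pos _)]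
  refine Real.exp_le_exp.2 (Finset.sum_le_sum fun p _ => ?_)
  refine (le_abs_self _).trans ?_
  rw [abs_mul]
  exact mul_le_of_le_one_right (abs_nonneg _) (Real.abs_cos_le_one _)

theorem chern (h0 : ST_PR0) (y : ℕ) (σ t v : ℝ) (ht : 0 ≤ t) :
    (tor y).real {φ | v ≤ (Vy y σ φ).re} ≤
      Real.exp (∑ p : Pr y, ell (t * (aa σ p * Real.log p)) - t * v) := by
  have e1 : ∀ φ : Pr y → ℝ, Real.exp (t * (Vy y σ φ).re) =
      Real.exp (∑ p : Pr y, t * (aa σ p * Real.log p) * Real.cos (φ p)) := by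
    intro φ
    rw [re_Vy, Finset.mul_sum]
    congr 1
    exact Finset.sum_congr rfl fun p _ => by ring
  have hint : Integrable (fun φ : Pr y → ℝ => Real.exp (t * (Vy y σ φ).re)) (tor y) := by
    simp only [e1]
    exact int_exp y _
  have h1 := ProbabilityTheory.measure_ge_le_exp_mul_mgf (μ := tor y)
    (X := fun φ => (Vy y σ φ).re) v ht hint
  refine h1.trans (le_of_eq ?_)
  rw [ProbabilityTheory.mgf]
  simp only [e1]
  rw [h0, ← Real.exp_add]
  congr 1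
  ring

end S2

open S2

/-- (UV) -/
theorem uv_of (h0 : ST_PR0) (h2 : ST_PR2) (h4 : ST_SM4) (h5 : ST_SM5) : ST_UV := by
  intro ε hε η hη
  obtain ⟨C, z4, hz4, hC, H4⟩ := h4 ε hε
  obtain ⟨c5, z5, hz5, hc5, H5⟩ := h5
  have hη0 : 0 < η := hη.1
  have hη1 : η < 1 := hη.2
  obtain ⟨J, hJ⟩ : ∃ J : ℕ, J = ⌈Real.pi / (η / 2)⌉₊ := ⟨_, rfl⟩
  obtain ⟨c, hc⟩ : ∃ c : ℝ, c = η * c5 / 4 := ⟨_, rfl⟩
  have hc0 : 0 < c := by rw [hc]; positivity
  obtain ⟨K, hK⟩ : ∃ K : ℝ, K = Real.log (2 * J + 1) / c := ⟨_, rfl⟩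
  have hlJ : 0 ≤ Real.log (2 * J + 1) := Real.log_nonneg (by linarith [Nat.cast_nonneg (α := ℝ) J])
  have hK0 : 0 ≤ K := by rw [hK]; positivity
  refine ⟨c, max (max z4 z5) (max (Real.exp (2 * C / (η * c5))) (K ^ 2)), hc0, ?_⟩
  intro y σ z hσ hz hzy
  have hz4' : z4 ≤ z := (le_max_left _ _).trans ((le_max_left _ _).trans hz)
  have hz5' : z5 ≤ z := (le_max_right _ _).trans ((le_max_left _ _).trans hz)
  have hzC : Real.exp (2 * C / (η * c5)) ≤ z :=
    (le_max_left _ _).trans ((le_max_right _ _).trans hz)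
  have hzK : K ^ 2 ≤ z := (le_max_right _ _).trans ((le_max_right _ _).trans hz)
  have hz3 : 3 ≤ z := hz4.trans hz4'
  have hz0 : 0 < z := by linarith
  have hσ1 : 1 / 2 ≤ σ := by linarith [hσ.1, hε.1]
  obtain ⟨L, hL⟩ : ∃ L : ℝ, L = Real.log z := ⟨_, rfl⟩
  have hLpos : 0 < L := by rw [hL]; exact Real.log_pos (by linarith)
  have hLC : 2 * C / (η * c5) ≤ L := by
    rw [hL, Real.le_log_iff_exp_le hz0]
    exact hzC
  obtain ⟨s, hs⟩ : ∃ s : ℝ, s = z ^ σ := ⟨_, rfl⟩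
  have hs0 : 0 < s := by rw [hs]; positivity
  have hsK : K ≤ s := by
    have h1 : K ≤ Real.sqrt z := Real.le_sqrt_of_sq_le hzK
    have h3 : Real.sqrt z ≤ s := by
      rw [hs, Real.sqrt_eq_rpow]
      exact Real.rpow_le_rpow_of_exponent_le (by linarith) hσ1
    exact h1.trans h3
  have hH4 := H4 y σ z hσ hz4'
  have hH5 := H5 y σ z ⟨hσ1, hσ.2⟩ hz5' hzy
  rw [← hs] at hH4 hH5 ⊢
  rw [← hL] at hH4 hH5
  obtain ⟨m, hm⟩ : ∃ m : ℝ, m = omy y σ s := ⟨_, rfl⟩
  rw [← hm] at hH5 ⊢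
  have hz1 : 0 < z ^ (1 - σ) := by positivity
  have hm0 : 0 ≤ m := le_trans (by positivity) hH5
  have hszz : s * z ^ (1 - σ) = z := by
    rw [hs, ← Real.rpow_add hz0, add_sub_cancel, Real.rpow_one]
  -- the algebra
  have halg : ∑ p : Pr y, ell (s / L * (aa σ p * Real.log p)) =
      ∑ p : Pr y, Bf (Real.log p / L) (s * aa σ p) - Ly y σ s + s / L * m := by
    rw [hm, Ly, omy, Finset.mul_sum, ← Finset.sum_sub_distrib, ← Finset.sum_add_distrib]
    refine Finset.sum_congr rfl fun p _ => ?_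
    rw [Bf]
    have e1 : Real.log p / L * (s * aa σ p) = s / L * (aa σ p * Real.log p) := by
      field_simp
    rw [e1]
    field_simp
    ring
  have hdir : ∀ α : ℝ, (tor y).real {φ | (1 + η / 2) * m ≤
      (Complex.exp (-((α : ℂ) * Complex.I)) * Vy y σ φ).re} ≤
      Real.exp (-(Ly y σ s) - η * c5 / 2 * s) := by
    intro α
    rw [h2]
    refine (chern h0 y σ (s / L) _ (by positivity)).trans (Real.exp_le_exp.2 ?_)
    rw [halg]
    have h6 : C * z / L ^ 2 ≤ η * c5 / 2 * (z / L) := by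
      rw [div_le_iff₀ (by positivity)] at hLC
      have h7 : C * z / L ^ 2 = C * (z / L) / L := by
        field_simp
      rw [h7, div_le_iff₀ hLpos]
      have h8 : 0 < z / L := by positivity
      nlinarith
    have h9 : s / L * (η / 2) * (c5 * (L + z ^ (1 - σ))) ≤ s / L * (η / 2) * m :=
      mul_le_mul_of_nonneg_left hH5 (by positivity)
    have h10 : s / L * (η / 2) * (c5 * (L + z ^ (1 - σ))) =
        η * c5 / 2 * s + η * c5 / 2 * (z / L) := by
      have h14 : z / L = s * z ^ (1 - σ) / L := by rw [hszz]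
      rw [h14]
      field_simp
    have h11 : s / L * ((1 + η / 2) * m) = s / L * m + s / L * (η / 2) * m := by ring
    rw [h11]
    linarith
  -- the union bound
  have hsub : {φ : Pr y → ℝ | (1 + η) * m ≤ ‖Vy y σ φ‖} ⊆
      ⋃ j ∈ Finset.Icc (-(J : ℤ)) J, {φ | (1 + η / 2) * m ≤
        (Complex.exp (-((((j : ℝ) * (η / 2) : ℝ) : ℂ) * Complex.I)) * Vy y σ φ).re} := by
    intro φ hφ
    obtain ⟨j, hj1, hj2⟩ := net hη0 hη1 hm0 (Vy y σ φ) hφ
    rw [mem_iUnion₂]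
    refine ⟨j, ?_, hj2⟩
    rw [hJ]
    exact hj1
  have hcard : ((Finset.Icc (-(J : ℤ)) J).card : ℝ) = 2 * J + 1 := by
    rw [Int.card_Icc]
    have e1 : ((J : ℤ) + 1 - -(J : ℤ)).toNat = 2 * J + 1 := by omega
    rw [e1]
    push_cast
    ring
  calc (tor y).real {φ | (1 + η) * m ≤ ‖Vy y σ φ‖}
      ≤ (tor y).real (⋃ j ∈ Finset.Icc (-(J : ℤ)) J, {φ | (1 + η / 2) * m ≤
        (Complex.exp (-((((j : ℝ) * (η / 2) : ℝ) : ℂ) * Complex.I)) * Vy y σ φ).re}) :=
        measureReal_mono hsub (measure_ne_top _ _)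
    _ ≤ ∑ j ∈ Finset.Icc (-(J : ℤ)) J, (tor y).real {φ | (1 + η / 2) * m ≤
        (Complex.exp (-((((j : ℝ) * (η / 2) : ℝ) : ℂ) * Complex.I)) * Vy y σ φ).re} :=
        measureReal_biUnion_finset_le _ _
    _ ≤ ∑ _j ∈ Finset.Icc (-(J : ℤ)) J, Real.exp (-(Ly y σ s) - η * c5 / 2 * s) :=
        Finset.sum_le_sum fun j _ => hdir _
    _ = (2 * J + 1) * Real.exp (-(Ly y σ s) - η * c5 / 2 * s) := by
        rw [Finset.sum_const, nsmul_eq_mul, hcard]
    _ = Real.exp (Real.log (2 * J + 1) + (-(Ly y σ s) - η * c5 / 2 * s)) := by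
        rw [Real.exp_add, Real.exp_log (by positivity)]
    _ ≤ Real.exp (-(Ly y σ s) - c * s) := by
        refine Real.exp_le_exp.2 ?_
        have h12 : Real.log (2 * J + 1) ≤ c * s := by
          rw [hK, div_le_iff₀ hc0] at hsK
          linarith
        have h13 : η * c5 / 2 * s = c * s + c * s := by
          rw [hc]
          ring
        linarith

end Pool.Agent.Helper57.QZ
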